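import Pool.Agent.H940_ver.FinalA
import Pool.Agent.H940_dft.Dens

/-!
# A deterministic recovery algorithm whose running time adapts to the polynomial

The definitions used in the statement (the word RAM, admissible polynomials, oracles, tame
polynomials) are in the file `Pool/Agent/H940_dft/Model.lean`.
-/

namespace Pool.Agent.Results.MP_66dcb2_lc.AdaptiveRecovery

open Pool.Agent.H940_dft Finset

theorem tame_floor {k : ℕ} {s : ℝ} {f : ℤ →₀ ℂ} (h : Tame k s f) :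
    TameN k ⌊s⌋₊ f := by
  intro i hi ω₀ hω₀
  rcases h i hi ω₀ hω₀ with h1 | ⟨m, h1, h2, h3⟩
  · exact Or.inl (Nat.le_floor h1)
  · exact Or.inr ⟨m, h1, Nat.le_floor h2, h3⟩

/-- Constant in the running time. -/
noncomputable def K₀ : ℕ :=
  5 + 5 * (Vc 5 + 1) + 20 * (10000325 + 265 * (Vc 5 + 1) + 40000000000)

/-- There is a fixed program which recovers every polynomial. -/
theorem recovery (k N B : ℕ) (hk : 1 ≤ k) (hkN : k ≤ N) (hN : 2 ≤ N) (hB : 1 ≤ B)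
    (f : ℤ →₀ ℂ) (hf : Admissible k N B f) (s : ℝ) (hs : 1 ≤ s) (ht : Tame k s f) :
    Recovers programA (wordLength (Vc 5 : ℝ) N B) k N B f
      ((K₀ * 15 ^ 15 : ℝ) * k * s ^ 2 * Real.logb 2 N ^ 15 * B ^ 15) := by
  intro O hO
  obtain ⟨p, hp⟩ : ∃ p : Par, p = ⟨k, N, B, 5, hk, hkN, hN, hB⟩ := ⟨_, rfl⟩
  have pk : p.k = k := by rw [hp]
  have pN : p.N = N := by rw [hp]
  have pB : p.B = B := by rw [hp]
  have pc : p.c = 5 := by rw [hp]
  obtain ⟨h1, h2, h3⟩ := logb_facts p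
  rw [pN] at h1 h2 h3
  have ha : Adm p f := ⟨by rw [pk]; exact hf.card, by rw [pN]; exact hf.freq,
    by rw [pB]; exact hf.grid, by rw [pB]; exact hf.upper⟩
  -- the parameter
  obtain ⟨σ, hσ1, hσk, hσs, hσt⟩ : ∃ σ : ℕ, 1 ≤ σ ∧ σ ≤ k ∧ (σ : ℝ) ≤ s ∧ TameN k σ f := by
    by_cases h : k ≤ ⌊s⌋₊
    · exact ⟨k, hk, le_rfl, (Nat.cast_le.2 h).trans (Nat.floor_le (by linarith)),
        tameN_self hf.card⟩
    · exact ⟨⌊s⌋₊, Nat.le_floor (by simpa using hs), by omega, Nat.floor_le (by linarith),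
        tame_floor ht⟩
  obtain ⟨w, hw⟩ : ∃ w, w = wordLength (Vc 5 : ℝ) N B := ⟨_, rfl⟩
  rw [← hw] at hO ⊢
  obtain ⟨T, hT, cf, hr, hh, ho⟩ := programA_correct p pc (w := w) (by rw [pc, pN, pB, hw]) ha hO
    hσ1 (by rw [pk]; exact hσk) (by rw [pk]; exact hσt)
  rw [pk, pN, pB] at hr
  rw [pB] at ho
  refine ⟨T, ?_, cf, hr, hh, ho⟩
  -- the running time
  obtain ⟨V, hV⟩ : ∃ V, V = Vc 5 + 1 := ⟨_, rfl⟩
  have hwl : w ≤ V * p.l := by
    have h4 := (wl_bounds p).2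
    rw [pc, pN, pB, ← hw] at h4
    have := p.l_ge
    rw [hV]
    nlinarith
  have hl1 : 1 ≤ p.l := by have := p.l_ge; omega
  have h5 := p.cinitx_le hwl
  have h6 := p.cadapt_le pc hσ1 (by rw [pk]; exact hσk)
  rw [pc] at h5
  have hσ2 : 1 ≤ σ ^ 2 := Nat.one_le_pow _ _ hσ1
  have e15 : p.a 15 = k * p.l ^ 15 := by unfold Par.a; rw [pk]
  have m2 : p.a 2 ≤ σ ^ 2 * p.a 15 :=
    (p.a_mono (show 2 ≤ 15 by norm_num)).trans (Nat.le_mul_of_pos_left _ hσ2)
  have m0 : 1 ≤ σ ^ 2 * p.a 15 := Nat.mul_pos hσ2 (p.a_pos 15)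
  have hlm : p.l ≤ σ ^ 2 * p.a 15 := by
    refine le_trans ?_ (Nat.le_mul_of_pos_left _ hσ2)
    rw [e15]
    calc p.l = 1 * p.l ^ 1 := by ring
      _ ≤ k * p.l ^ 15 := Nat.mul_le_mul hk (Nat.pow_le_pow_right hl1 (by norm_num))
  have hT2 : T ≤ (5 + 5 * V + 20 * (10000325 + 265 * V + 40000000000)) * (σ ^ 2 * p.a 15) := by
    have h7 : w ≤ V * (σ ^ 2 * p.a 15) := hwl.trans (Nat.mul_le_mul_left _ hlm)
    have h8 : (10000000 + 65 * 5 + 265 * V) * p.a 2 ≤ (10000325 + 265 * V) * (σ ^ 2 * p.a 15) :=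
      Nat.mul_le_mul (by omega) m2
    calc T ≤ 5 + 5 * w + 20 * (p.cinitx w + p.cadapt σ) := hT
      _ ≤ 5 * (σ ^ 2 * p.a 15) + 5 * (V * (σ ^ 2 * p.a 15)) + 20 * ((10000325 + 265 * V) *
          (σ ^ 2 * p.a 15) + 40000000000 * (σ ^ 2 * p.a 15)) := by
        have := h5.trans h8
        omega
      _ = _ := by ring
  have hl : (p.l : ℝ) ≤ 15 * (Real.logb 2 N * B) := by
    have e1 : (p.l : ℝ) = p.P + p.B := by unfold Par.l; push_cast; ring
    have hB1 : (1 : ℝ) ≤ B := by exact_mod_cast hB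
    rw [e1, pB]
    nlinarith
  have hl0 : (0 : ℝ) ≤ p.l := by positivity
  have hpow : (p.l : ℝ) ^ 15 ≤ 15 ^ 15 * (Real.logb 2 N ^ 15 * (B : ℝ) ^ 15) := by
    calc (p.l : ℝ) ^ 15 ≤ (15 * (Real.logb 2 N * B)) ^ 15 := pow_le_pow_left₀ hl0 hl _
      _ = _ := by rw [mul_pow, mul_pow]
  have hσ0 : (0 : ℝ) ≤ σ := by positivity
  have hss : (σ : ℝ) ^ 2 ≤ s ^ 2 := pow_le_pow_left₀ hσ0 hσs 2
  have hT3 : (T : ℝ) ≤ (K₀ : ℝ) * ((σ : ℝ) ^ 2 * (k * (p.l : ℝ) ^ 15)) := by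
    rw [e15] at hT2
    unfold K₀
    rw [← hV]
    exact_mod_cast hT2
  refine hT3.trans ?_
  have hx0 : 0 ≤ Real.logb 2 N := by linarith
  have hK : (0 : ℝ) ≤ (K₀ : ℝ) := Nat.cast_nonneg _
  generalize (K₀ : ℝ) = K at hK ⊢
  calc _ ≤ K * (s ^ 2 * (k * (15 ^ 15 * (Real.logb 2 N ^ 15 * (B : ℝ) ^ 15)))) := by
        gcongr
    _ = _ := by ring

/-- There is a program of the word RAM, with constants `A` and `C`, which recovers every admissible
polynomial, and which needs at most the time `A k s ^ 2 (log N) ^ C B ^ C` for the polynomials that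
are tame with parameter `s`, for every real number `s ≥ 1` (which the program does not know); all
polynomials are tame with parameter `k`. For every `e` there are constants `A'` and `C'` such that
at most a fraction `2 ^ (-B (log N) ^ e)` of the admissible polynomials with any given set of
frequencies is not recovered by this program within time `A' k (log N) ^ C' B ^ C'`. -/
theorem result : ∃ C₀ : ℝ, 2 ≤ C₀ ∧ ∃ (P : List Instr) (A : ℝ) (C : ℕ),
    (∀ k N B : ℕ, 1 ≤ k → k ≤ N → 2 ≤ N → 1 ≤ B → ∀ f : ℤ →₀ ℂ, Admissible k N B f →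
      Tame k k f ∧ ∀ s : ℝ, 1 ≤ s → Tame k s f →
        Recovers P (wordLength C₀ N B) k N B f (A * k * s ^ 2 * Real.logb 2 N ^ C * B ^ C)) ∧
    ∀ e : ℕ, ∃ (A' : ℝ) (C' : ℕ), ∀ k N B : ℕ, 1 ≤ k → k ≤ N → 2 ≤ N → 1 ≤ B →
      ∀ S : Finset ℤ, S.card = k → (∀ ω ∈ S, |ω| ≤ (N : ℤ)) →
      {f | Admissible k N B f ∧ f.support = S}.Finite ∧
      (Set.ncard {f | Admissible k N B f ∧ f.support = S ∧
          ¬ Recovers P (wordLength C₀ N B) k N B f
            (A' * k * Real.logb 2 N ^ C' * B ^ C')} : ℝ) ≤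
        2 ^ (-(B * Real.logb 2 N ^ e)) *
          (Set.ncard {f | Admissible k N B f ∧ f.support = S} : ℝ) := by
  refine ⟨(Vc 5 : ℝ), ?_, programA, (K₀ * 15 ^ 15 : ℝ), 15, ?_, ?_⟩
  · have : 2 ≤ Vc 5 := by unfold Vc; omega
    exact_mod_cast this
  · intro k N B hk hkN hN hB f hf
    refine ⟨?_, fun s hs ht => recovery k N B hk hkN hN hB f hf s hs ht⟩
    intro i _ ω₀ _
    left
    have := tameN_self hf.card i ‹_› ω₀ ‹_›
    have h2 : (f.support.filter (fun ω => (2 ^ i : ℤ) ∣ ω - ω₀)).card ≤ k := by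
      rw [← hf.card]
      exact card_filter_le _ _
    exact_mod_cast h2
  · intro e
    refine ⟨(K₀ * 15 ^ 15 : ℝ) * 150 ^ 2, 15 + 2 * (2 * e + 3), ?_⟩
    intro k N B hk hkN hN hB S hS1 hS2
    have hx1 : 1 ≤ Real.logb 2 N := by
      rw [Real.le_logb_iff_rpow_le (by norm_num) (by exact_mod_cast (by omega : 0 < N))]
      simpa using (by exact_mod_cast hN : (2 : ℝ) ≤ N)
    have hfam := fam_iff (B := B) hS1 hS2
    have hfin := (fam_card B S).1
    rw [hfam]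
    refine ⟨hfin, le_trans ?_ (density e k N B hN hkN hB S hS1 hS2)⟩
    have hsub : {f | Admissible k N B f ∧ f.support = S ∧
        ¬ Recovers programA (wordLength (Vc 5 : ℝ) N B) k N B f
          ((K₀ * 15 ^ 15 : ℝ) * 150 ^ 2 * k * Real.logb 2 N ^ (15 + 2 * (2 * e + 3)) *
            B ^ (15 + 2 * (2 * e + 3)))} ⊆
        {f | f ∈ Fam B S ∧ ¬ Tame k (150 * Real.logb 2 N ^ (2 * e + 3)) f} := by
      rintro f ⟨h1, h2, h3⟩
      have hmem : f ∈ Fam B S := by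
        rw [← hfam]
        exact ⟨h1, h2⟩
      refine ⟨hmem, fun ht => h3 ?_⟩
      intro O hO
      have hs : 1 ≤ 150 * Real.logb 2 N ^ (2 * e + 3) := by
        have := one_le_pow₀ hx1 (n := 2 * e + 3)
        linarith
      obtain ⟨n, hn, cf, h4⟩ := recovery k N B hk hkN hN hB f h1 _ hs ht O hO
      refine ⟨n, hn.trans ?_, cf, h4⟩
      have hB1 : (1 : ℝ) ≤ B := by exact_mod_cast hB
      have hBp : (B : ℝ) ^ 15 ≤ B ^ (15 + 2 * (2 * e + 3)) :=
        pow_le_pow_right₀ hB1 (by omega)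
      have hx0 : 0 ≤ Real.logb 2 N := by linarith
      have hK : (0 : ℝ) ≤ (K₀ : ℝ) := Nat.cast_nonneg _
      generalize (K₀ : ℝ) = K at hK ⊢
      calc (K * 15 ^ 15 : ℝ) * k * (150 * Real.logb 2 N ^ (2 * e + 3)) ^ 2 *
            Real.logb 2 N ^ 15 * B ^ 15
          = (K * 15 ^ 15 : ℝ) * 150 ^ 2 * k * Real.logb 2 N ^ (15 + 2 * (2 * e + 3)) *
            B ^ 15 := by ring
        _ ≤ _ := by gcongr
    exact_mod_cast Set.ncard_le_ncard hsub (hfin.subset fun f hf => hf.1)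

end Pool.Agent.Results.MP_66dcb2_lc.AdaptiveRecovery
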