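import Pool.Agent.H940_ver.CostR

/-!
# Recovery without error in expected time `k · polylog`

The definitions used in the statement are in the files `Pool/Agent/H940_dft/Model.lean` (the word
RAM, admissible polynomials, oracles) and `Pool/Agent/H940_ver/FinalR.lean` (`initialBits`).
-/

namespace Pool.Agent.Results.MP_66dcb2_lc.LasVegas

open Pool.Agent.H940_dft Finset

/-- Constant in the running time. -/
def K₁ : ℕ := 5 + 5 * (Vc 5 + 1) + 20 * (4000000000 + 265 * (Vc 5 + 1)) + 800000000000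

theorem K₁_pos : (1 : ℝ) ≤ K₁ := by
  have : 1 ≤ K₁ := by unfold K₁; omega
  exact_mod_cast this

/-- The result for one choice of the parameters. -/
theorem core (p : Par) (hc : p.c = 5) (f : ℤ →₀ ℂ) (hf : Admissible p.k p.N p.B f) :
    ∃ T : (Fin p.nb → Bool) → ℕ,
      ∑ ρ, (T ρ : ℝ) ≤
        2 ^ p.nb * ((K₁ : ℝ) * 15 ^ 15 * p.k * Real.logb 2 p.N ^ 15 * p.B ^ 15) ∧
      (Set.ncard {ρ | (K₁ : ℝ) * 15 ^ 15 * p.k * Real.logb 2 p.N ^ 15 * p.B ^ 15 < T ρ} : ℝ) ≤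
        2 ^ p.nb * 2 ^ (-(Real.logb 2 p.N + p.B)) ∧
      ∀ (ρ : Fin p.nb → Bool) (O : ℕ → ℕ → ℕ → ℤ × ℤ),
        IsOracle (wordLength (Vc 5 : ℝ) p.N p.B) f O →
        ∃ n : ℕ, n ≤ T ρ ∧ ∃ c : Conf (wordLength (Vc 5 : ℝ) p.N p.B),
          Runs programR O n (initialBits (wordLength (Vc 5 : ℝ) p.N p.B) p.k p.N p.B p.nb ρ) c ∧
            Halted programR c ∧ c.output p.B = {q | q.1 ∈ f.support ∧ q.2 = f q.1} := by
  classical
  obtain ⟨h1, h2, h3⟩ := logb_facts p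
  have ha : Adm p f := ⟨hf.card, hf.freq, hf.grid, hf.upper⟩
  obtain ⟨w, hw⟩ : ∃ w, w = wordLength (Vc 5 : ℝ) p.N p.B := ⟨_, rfl⟩
  rw [← hw]
  have hw' : w = wordLength (Vc p.c : ℝ) p.N p.B := by rw [hc, hw]
  obtain ⟨V, hV⟩ : ∃ V, V = Vc 5 + 1 := ⟨_, rfl⟩
  have hwl : w ≤ V * p.l := by
    have h4 := (wl_bounds p).2
    rw [hc, ← hw] at h4
    have := p.l_ge
    rw [hV]
    nlinarith
  have hfast := fast_cost (p := p) hc hwl
  have hbad := bad_cost ha hc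
  have hl : (p.l : ℝ) ≤ 15 * (Real.logb 2 p.N * p.B) := by
    have e1 : (p.l : ℝ) = p.P + p.B := by unfold Par.l; push_cast; ring
    have hB1 : (1 : ℝ) ≤ p.B := by exact_mod_cast p.hB
    rw [e1]
    nlinarith
  have hl0 : (0 : ℝ) ≤ p.l := by positivity
  have hpow : (p.a 15 : ℝ) ≤ 15 ^ 15 * p.k * Real.logb 2 p.N ^ 15 * p.B ^ 15 := by
    have e1 : (p.a 15 : ℝ) = p.k * (p.l : ℝ) ^ 15 := by unfold Par.a; push_cast; ring
    rw [e1]
    calc (p.k : ℝ) * (p.l : ℝ) ^ 15 ≤ p.k * (15 * (Real.logb 2 p.N * p.B)) ^ 15 :=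
          mul_le_mul_of_nonneg_left (pow_le_pow_left₀ hl0 hl _) (Nat.cast_nonneg _)
      _ = _ := by rw [mul_pow, mul_pow]; ring
  have hK : (((5 + 5 * V + 20 * (4000000000 + 265 * V)) * p.a 15 : ℕ) : ℝ) +
      20 * (40000000000 * p.a 15) = (K₁ : ℝ) * p.a 15 := by
    unfold K₁
    rw [← hV]
    push_cast
    ring
  have hKb : (K₁ : ℝ) * p.a 15 ≤ (K₁ : ℝ) * 15 ^ 15 * p.k * Real.logb 2 p.N ^ 15 * p.B ^ 15 := by
    have h0 : (0 : ℝ) ≤ (K₁ : ℝ) := Nat.cast_nonneg _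
    generalize (K₁ : ℝ) = K at h0 ⊢
    calc K * p.a 15 ≤ K * (15 ^ 15 * p.k * Real.logb 2 p.N ^ 15 * p.B ^ 15) :=
          mul_le_mul_of_nonneg_left hpow h0
      _ = _ := by ring
  obtain ⟨F, hF⟩ : ∃ F : ℕ, F = 5 + 5 * w + 20 * (p.cinitx w + (p.clistR + (p.cfind (p.R + 1) +
    (p.cver + 195)))) := ⟨_, rfl⟩
  have hsum := sum_timeR (p := p) (w := w) f
  rw [← hF] at hsum hfast
  have hFr : (F : ℝ) ≤ (((5 + 5 * V + 20 * (4000000000 + 265 * V)) * p.a 15 : ℕ) : ℝ) := by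
    exact_mod_cast hfast
  refine ⟨timeR p w f, ?_, ?_, ?_⟩
  · have h2n : (0 : ℝ) ≤ 2 ^ p.nb := by positivity
    calc ∑ ρ, (timeR p w f ρ : ℝ) ≤ 2 ^ p.nb * (F : ℝ) + 20 * ((BadR p f).card * p.cadapt p.k) :=
          hsum
      _ ≤ 2 ^ p.nb * (((5 + 5 * V + 20 * (4000000000 + 265 * V)) * p.a 15 : ℕ) : ℝ) +
          20 * (2 ^ p.nb * (40000000000 * p.a 15)) := by
          have := mul_le_mul_of_nonneg_left hFr h2n
          linarith
      _ = 2 ^ p.nb * ((((5 + 5 * V + 20 * (4000000000 + 265 * V)) * p.a 15 : ℕ) : ℝ) +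
          20 * (40000000000 * p.a 15)) := by ring
      _ = 2 ^ p.nb * ((K₁ : ℝ) * p.a 15) := by rw [hK]
      _ ≤ _ := mul_le_mul_of_nonneg_left hKb h2n
  · have hsub : {ρ | (K₁ : ℝ) * 15 ^ 15 * p.k * Real.logb 2 p.N ^ 15 * p.B ^ 15 <
        timeR p w f ρ} ⊆ (BadR p f : Set (Fin p.nb → Bool)) := by
      intro ρ hρ
      rw [Set.mem_ofPred_eq] at hρ
      by_contra hnot
      have hv : VisL p f (p.R + 1) (aR p (bitOf ρ)) (fun _ => 1) (fun _ => 1) := by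
        by_contra h
        apply hnot
        show ρ ∈ BadR p f
        unfold BadR
        rw [mem_filter]
        exact ⟨mem_univ _, h⟩
      have e1 : timeR p w f ρ = F := by
        unfold timeR clast
        rw [if_pos hv, hF]
      rw [e1] at hρ
      have h5 : (F : ℝ) ≤ (K₁ : ℝ) * p.a 15 := by
        have h6 : (0 : ℝ) ≤ p.a 15 := Nat.cast_nonneg _
        linarith
      linarith
    have hcard := card_BadR ha
    have hn : (Set.ncard {ρ | (K₁ : ℝ) * 15 ^ 15 * p.k * Real.logb 2 p.N ^ 15 * p.B ^ 15 <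
        timeR p w f ρ} : ℝ) ≤ (BadR p f).card := by
      have := Set.ncard_le_ncard hsub (Finset.finite_toSet _)
      rw [Set.ncard_coe_finset] at this
      exact_mod_cast this
    refine hn.trans (hcard.trans ?_)
    have hkl : p.k ≤ 2 ^ p.l := by
      have h1 := p.lt_P
      have h2 := p.hkN
      have h3 : 2 ^ p.P ≤ 2 ^ p.l := Nat.pow_le_pow_right (by norm_num) p.P_le_l
      omega
    have hPl : p.P + 1 ≤ 2 ^ p.l := by
      have h4 := Par.n_le_pow p.l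
      have h5 : p.P + 1 ≤ p.l := by
        have := p.hB
        unfold Par.l; omega
      omega
    have h6 : ((p.P : ℝ) + 1) * p.k ≤ 2 ^ (2 * p.l) := by
      have : (p.P + 1) * p.k ≤ 2 ^ (2 * p.l) := by
        calc (p.P + 1) * p.k ≤ 2 ^ p.l * 2 ^ p.l := Nat.mul_le_mul hPl hkl
          _ = _ := by rw [← pow_add]; congr 1; ring
      exact_mod_cast this
    have h7 : (2 : ℝ) ^ (-(43 * p.l : ℝ)) ≤ 2 ^ (-(Real.logb 2 p.N + p.B)) := by
      apply Real.rpow_le_rpow_of_exponent_le (by norm_num)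
      have e1 : (p.l : ℝ) = p.P + p.B := by unfold Par.l; push_cast; ring
      have hB1 : (1 : ℝ) ≤ p.B := by exact_mod_cast p.hB
      rw [e1]
      linarith
    have h8 : (2 : ℝ) ^ (2 * p.l) * (1 / 2) ^ (45 * p.l) = 2 ^ (-(43 * p.l : ℝ)) := by
      rw [Real.rpow_neg (by norm_num), one_div, inv_pow,
        show (43 * p.l : ℝ) = ((43 * p.l : ℕ) : ℝ) by push_cast; ring, Real.rpow_natCast]
      rw [show 45 * p.l = 2 * p.l + 43 * p.l by ring, pow_add, mul_inv, ← mul_assoc,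
        mul_inv_cancel₀ (by positivity), one_mul]
    calc ((p.P : ℝ) + 1) * p.k * (2 ^ p.nb * (1 / 2) ^ (45 * p.l))
        = 2 ^ p.nb * ((((p.P : ℝ) + 1) * p.k) * (1 / 2) ^ (45 * p.l)) := by ring
      _ ≤ 2 ^ p.nb * (2 ^ (2 * p.l) * (1 / 2) ^ (45 * p.l)) := by gcongr
      _ = 2 ^ p.nb * 2 ^ (-(43 * p.l : ℝ)) := by rw [h8]
      _ ≤ _ := mul_le_mul_of_nonneg_left h7 (by positivity)
  · intro ρ O hO
    exact programR_correct p hc hw' ha hO ρ

/-- Number of random bits. -/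
def nbits (N B : ℕ) : ℕ :=
  ((Nat.size (4096 * N) + B) * (Nat.size (4096 * N) + B)) *
    ((Nat.size (4096 * N) + B) * (Nat.size (4096 * N) + B)) * (Nat.size (4096 * N) - 1)

/-- There is a program of the word RAM which gets, in addition to `k`, `N` and `B`, a string of
random bits whose length depends only on `N` and `B` and is at most polynomial in `log N` and `B`,
and which recovers every admissible polynomial for every bit string, under every tie resolution.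
For every admissible polynomial there is a bound `T ρ` for the running time with the bit string `ρ`
such that the average of `T ρ` is at most `A k (log N) ^ C B ^ C`, and such that at most a fraction
`1 / (2 ^ B N)` of the numbers `T ρ` is larger than `A k (log N) ^ C B ^ C`. -/
theorem result : ∃ C₀ : ℝ, 2 ≤ C₀ ∧ ∃ (P : List Instr) (A : ℝ) (C : ℕ) (nb : ℕ → ℕ → ℕ),
    ∀ k N B : ℕ, 1 ≤ k → k ≤ N → 2 ≤ N → 1 ≤ B →
    (nb N B : ℝ) ≤ A * Real.logb 2 N ^ C * B ^ C ∧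
    ∀ f : ℤ →₀ ℂ, Admissible k N B f → ∃ T : (Fin (nb N B) → Bool) → ℕ,
      ∑ ρ, (T ρ : ℝ) ≤ 2 ^ nb N B * (A * k * Real.logb 2 N ^ C * B ^ C) ∧
      (Set.ncard {ρ | A * k * Real.logb 2 N ^ C * B ^ C < T ρ} : ℝ) ≤
        2 ^ nb N B * 2 ^ (-(Real.logb 2 N + B)) ∧
      ∀ (ρ : Fin (nb N B) → Bool) (O : ℕ → ℕ → ℕ → ℤ × ℤ), IsOracle (wordLength C₀ N B) f O →
        ∃ n : ℕ, n ≤ T ρ ∧ ∃ c : Conf (wordLength C₀ N B),
          Runs P O n (initialBits (wordLength C₀ N B) k N B (nb N B) ρ) c ∧ Halted P c ∧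
            c.output B = {q | q.1 ∈ f.support ∧ q.2 = f q.1} := by
  refine ⟨(Vc 5 : ℝ), ?_, programR, (K₁ : ℝ) * 15 ^ 15, 15, nbits, ?_⟩
  · have : 2 ≤ Vc 5 := by unfold Vc; omega
    exact_mod_cast this
  intro k N B hk hkN hN hB
  obtain ⟨p, hp⟩ : ∃ p : Par, p = ⟨k, N, B, 5, hk, hkN, hN, hB⟩ := ⟨_, rfl⟩
  refine ⟨?_, fun f hf => core ⟨k, N, B, 5, hk, hkN, hN, hB⟩ rfl f hf⟩
  have hnb : nbits N B = p.nb := by rw [hp]; rfl
  have pN : p.N = N := by rw [hp]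
  have pB : p.B = B := by rw [hp]
  obtain ⟨h1, h2, h3⟩ := logb_facts p
  rw [hnb]
  rw [pN] at h1 h2 h3
  have hl : (p.l : ℝ) ≤ 15 * (Real.logb 2 N * B) := by
    have e1 : (p.l : ℝ) = p.P + p.B := by unfold Par.l; push_cast; ring
    have hB1 : (1 : ℝ) ≤ B := by exact_mod_cast hB
    rw [e1, pB]
    nlinarith
  have hl1 : 1 ≤ p.l := by have := p.l_ge; omega
  have h4 : p.nb ≤ p.l ^ 15 := by
    unfold Par.nb Par.R
    calc (p.l * p.l) * (p.l * p.l) * (p.P - 1) ≤ (p.l * p.l) * (p.l * p.l) * p.l :=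
          Nat.mul_le_mul_left _ (by have := p.P_le_l; omega)
      _ = p.l ^ 5 := by ring
      _ ≤ p.l ^ 15 := Nat.pow_le_pow_right hl1 (by norm_num)
  have h5 : (p.nb : ℝ) ≤ (p.l : ℝ) ^ 15 := by exact_mod_cast h4
  have hl0 : (0 : ℝ) ≤ p.l := by positivity
  have hK := K₁_pos
  have hx0 : 0 ≤ Real.logb 2 N := by linarith
  generalize (K₁ : ℝ) = K at hK ⊢
  calc (p.nb : ℝ) ≤ (p.l : ℝ) ^ 15 := h5
    _ ≤ (15 * (Real.logb 2 N * B)) ^ 15 := pow_le_pow_left₀ hl0 hl _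
    _ = 1 * (15 ^ 15 * Real.logb 2 N ^ 15 * B ^ 15) := by rw [mul_pow, mul_pow]; ring
    _ ≤ K * (15 ^ 15 * Real.logb 2 N ^ 15 * B ^ 15) :=
        mul_le_mul_of_nonneg_right hK (by positivity)
    _ = _ := by ring

end Pool.Agent.Results.MP_66dcb2_lc.LasVegas
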