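import Mathlib

/-!
# Few samples determine a sparse trigonometric polynomial with discrete coefficients
-/

namespace Pool.Agent.Results.MP_66dcb2_lc.SampleBound

open Complex Polynomial Finset

/-- The value at `x` of the trigonometric polynomial with coefficients `c`. -/
noncomputable def value (c : ℤ →₀ ℂ) (x : ℝ) : ℂ := c.sum fun ω a => a * exp (I * ω * x)

/-- The admissible trigonometric polynomials with parameters `k`, `N`, `B`, given by their
coefficients. -/
structure Admissible (k N B : ℕ) (c : ℤ →₀ ℂ) : Prop where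
  card : c.support.card = k
  freq : ∀ ω ∈ c.support, |ω| ≤ N
  grid : ∀ ω ∈ c.support, ∃ a b : ℤ, c ω = (a + b * I) / 2 ^ B
  lower : ∀ ω ∈ c.support, (1 : ℝ) / 2 ^ B ≤ ‖c ω‖
  upper : ∀ ω ∈ c.support, ‖c ω‖ ≤ 2 ^ B

/-- The point of `2 ^ (-w) ℤ[i]` with numerators `u`. -/
noncomputable def gridPt (w : ℕ) (u : ℤ × ℤ) : ℂ := (u.1 + u.2 * I) / 2 ^ w

/-- `u` is a possible answer of the oracle with `w` bits to a call whose true value is `z`. -/
def IsNearest (w : ℕ) (z : ℂ) (u : ℤ × ℤ) : Prop :=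
  ∀ v : ℤ × ℤ, ‖z - gridPt w u‖ ≤ ‖z - gridPt w v‖

/-- The word length. -/
noncomputable def wordLength (C₀ : ℝ) (N B : ℕ) : ℕ := ⌈C₀ * (Real.logb 2 N + B)⌉₊

/-! ### The oracle -/

theorem nearest_le {w : ℕ} {z : ℂ} {u : ℤ × ℤ} (h : IsNearest w z u) :
    ‖z - gridPt w u‖ ≤ 1 / 2 ^ w := by
  have h2 : (0 : ℝ) < 2 ^ w := by positivity
  refine (h (round (2 ^ w * z.re), round (2 ^ w * z.im))).trans ?_
  have e : z - gridPt w (round (2 ^ w * z.re), round (2 ^ w * z.im)) =
      (((2 ^ w * z.re - round (2 ^ w * z.re) : ℝ) : ℂ) +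
        ((2 ^ w * z.im - round (2 ^ w * z.im) : ℝ) : ℂ) * I) / 2 ^ w := by
    unfold gridPt
    have h3 : (2 : ℂ) ^ w ≠ 0 := pow_ne_zero _ two_ne_zero
    have h7 : z = z.re + z.im * I := (re_add_im z).symm
    rw [eq_div_iff h3, sub_mul, div_mul_cancel₀ _ h3]
    push_cast
    generalize round (2 ^ w * z.re) = r1
    generalize round (2 ^ w * z.im) = r2
    linear_combination (2 ^ w : ℂ) * h7
  rw [e, norm_div]
  have h4 : ‖(2 : ℂ) ^ w‖ = 2 ^ w := by simp
  rw [h4]
  apply div_le_div_of_nonneg_right _ h2.le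
  refine (norm_add_le _ _).trans ?_
  rw [norm_mul, norm_I, mul_one, norm_real, norm_real, Real.norm_eq_abs, Real.norm_eq_abs]
  have h5 := abs_sub_round (2 ^ w * z.re)
  have h6 := abs_sub_round (2 ^ w * z.im)
  linarith

theorem close_of_same {w : ℕ} {z z' : ℂ} {u : ℤ × ℤ} (h : IsNearest w z u)
    (h' : IsNearest w z' u) : ‖z - z'‖ ≤ 2 / 2 ^ w := by
  have h1 := nearest_le h
  have h2 := nearest_le h'
  have : z - z' = (z - gridPt w u) - (z' - gridPt w u) := by ring
  rw [this]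
  refine (norm_sub_le _ _).trans ?_
  rw [show (2 : ℝ) / 2 ^ w = 1 / 2 ^ w + 1 / 2 ^ w by ring]
  linarith

/-! ### Small values at roots of unity of prime order -/

/-- An integer polynomial of degree less than `p - 1` which is not zero has product of norms of
its values at the primitive `p`-th roots of unity at least one. -/
theorem one_le_prod {p : ℕ} (hp : p.Prime) (R : ℤ[X]) (hR : R ≠ 0) (hd : R.natDegree < p - 1) :
    1 ≤ ∏ ζ ∈ primitiveRoots p ℂ, ‖(R.map (Int.castRingHom ℂ)).eval ζ‖ := by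
  set n := R.natDegree with hn
  have h1 : resultant ((cyclotomic p ℤ).map (Int.castRingHom ℂ)) (R.map (Int.castRingHom ℂ))
      (cyclotomic p ℤ).natDegree n = ((resultant (cyclotomic p ℤ) R
        (cyclotomic p ℤ).natDegree n : ℤ) : ℂ) := by
    rw [resultant_map_map]; rfl
  have h2 : resultant ((cyclotomic p ℤ).map (Int.castRingHom ℚ)) (R.map (Int.castRingHom ℚ))
      (cyclotomic p ℤ).natDegree n = ((resultant (cyclotomic p ℤ) R
        (cyclotomic p ℤ).natDegree n : ℤ) : ℚ) := by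
    rw [resultant_map_map]; rfl
  have hinj : Function.Injective (Int.castRingHom ℚ) := by
    rw [RingHom.injective_iff_ker_eq_bot, RingHom.ker_eq_bot_iff_eq_zero]
    intro x hx; simpa using hx
  have h3 : resultant (cyclotomic p ℤ) R (cyclotomic p ℤ).natDegree n ≠ 0 := by
    intro h0
    rw [h0, Int.cast_zero, map_cyclotomic] at h2
    have hRq : (R.map (Int.castRingHom ℚ)).natDegree = n :=
      natDegree_map_eq_of_injective hinj R
    have hcd : (cyclotomic p ℤ).natDegree = (cyclotomic p ℚ).natDegree := by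
      rw [natDegree_cyclotomic, natDegree_cyclotomic]
    have hco : IsCoprime (cyclotomic p ℚ) (R.map (Int.castRingHom ℚ)) := by
      apply ((cyclotomic.irreducible_rat hp.pos).coprime_iff_not_dvd).2
      intro hdvd
      have hne : R.map (Int.castRingHom ℚ) ≠ 0 := (Polynomial.map_ne_zero_iff hinj).2 hR
      have := natDegree_le_of_dvd hdvd hne
      rw [natDegree_cyclotomic, Nat.totient_prime hp, hRq] at this
      omega
    have := resultant_ne_zero _ _ hco
    rw [hRq, ← hcd] at this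
    exact this h2
  have h4 : (1 : ℝ) ≤ ‖((resultant (cyclotomic p ℤ) R (cyclotomic p ℤ).natDegree n : ℤ) : ℂ)‖ := by
    rw [Complex.norm_intCast]
    exact_mod_cast Int.one_le_abs h3
  rw [← h1, map_cyclotomic] at h4
  have hcd : (cyclotomic p ℤ).natDegree = (cyclotomic p ℂ).natDegree := by
    rw [natDegree_cyclotomic, natDegree_cyclotomic]
  have hle : (R.map (Int.castRingHom ℂ)).natDegree ≤ n := natDegree_map_le
  rw [hcd, resultant_eq_prod_eval _ _ n hle (IsAlgClosed.splits _)] at h4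
  rw [(cyclotomic.monic p ℂ).leadingCoeff, one_pow, one_mul] at h4
  have : NeZero (p : ℂ) := ⟨Nat.cast_ne_zero.2 hp.ne_zero⟩
  have hroots : (cyclotomic p ℂ).roots = (primitiveRoots p ℂ).val :=
    cyclotomic.roots_eq_primitiveRoots_val
  rw [hroots] at h4
  have e : (Multiset.map (fun ζ => (R.map (Int.castRingHom ℂ)).eval ζ)
      (primitiveRoots p ℂ).val).prod = ∏ ζ ∈ primitiveRoots p ℂ,
        (R.map (Int.castRingHom ℂ)).eval ζ := rfl
  rw [show (Multiset.map (eval · (R.map (Int.castRingHom ℂ))) (primitiveRoots p ℂ).val).prod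
    = ∏ ζ ∈ primitiveRoots p ℂ, (R.map (Int.castRingHom ℂ)).eval ζ from rfl, norm_prod] at h4
  exact h4

theorem coprime_lt {a p : ℕ} (ha : 1 ≤ a ∧ a < p) (hp : p.Prime) :
    a.Coprime p := by
  rw [Nat.coprime_comm, hp.coprime_iff_not_dvd]
  intro h
  have := Nat.le_of_dvd (by omega) h
  omega

/-- The sample points. -/
noncomputable def pt (p a : ℕ) : ℝ := 2 * Real.pi * a / p

/-- The corresponding points of the unit circle. -/
noncomputable def zt (p a : ℕ) : ℂ := exp (I * (pt p a : ℂ))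

theorem norm_zt (p a : ℕ) : ‖zt p a‖ = 1 := by
  unfold zt
  rw [mul_comm]
  exact norm_exp_ofReal_mul_I _

theorem zt_eq {p : ℕ} (a : ℕ) : zt p a = exp (2 * Real.pi * I * (a / p)) := by
  unfold zt pt
  congr 1
  push_cast
  ring

theorem prod_primitive {p : ℕ} (hp : p.Prime) (F : ℂ → ℝ) :
    ∏ ζ ∈ primitiveRoots p ℂ, F ζ = ∏ a ∈ Ico 1 p, F (zt p a) := by
  symm
  apply Finset.prod_bij (fun a _ => zt p a)
  · intro a ha
    rw [mem_Ico] at ha
    rw [mem_primitiveRoots hp.pos, zt_eq, Complex.isPrimitiveRoot_iff _ _ hp.ne_zero]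
    exact ⟨a, ha.2, ((coprime_lt ha hp)), rfl⟩
  · intro a ha b hb hab
    rw [mem_Ico] at ha hb
    have h1 := (Complex.isPrimitiveRoot_exp p hp.ne_zero)
    have e : ∀ c : ℕ, zt p c = exp (2 * Real.pi * I / p) ^ c := by
      intro c
      rw [zt_eq, ← Complex.exp_nat_mul]
      congr 1
      ring
    simp only [e] at hab
    exact h1.pow_inj ha.2 hb.2 hab
  · intro ζ hζ
    rw [mem_primitiveRoots hp.pos, Complex.isPrimitiveRoot_iff _ _ hp.ne_zero] at hζ
    obtain ⟨a, ha, hc, he⟩ := hζ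
    refine ⟨a, ?_, ?_⟩
    · rw [mem_Ico]
      refine ⟨?_, ha⟩
      rcases Nat.eq_zero_or_pos a with h0 | h0
      · subst h0
        rw [Nat.coprime_zero_left] at hc
        exact absurd hc hp.one_lt.ne'
      · exact h0
    · rw [zt_eq, he]
  · intro a _; rfl

/-! ### Tuples -/

/-- The coefficients given by a tuple of frequencies and numerators. -/
noncomputable def T {k : ℕ} (B : ℕ) (t : Fin k → ℤ × ℤ × ℤ) : ℤ →₀ ℂ :=
  ∑ i, Finsupp.single (t i).1 ((((t i).2.1 : ℂ) + (t i).2.2 * I) / 2 ^ B)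

noncomputable def U {k : ℕ} (N : ℕ) (t : Fin k → ℤ × ℤ × ℤ) : ℤ[X] :=
  ∑ i, C (t i).2.1 * X ^ ((t i).1 + N).toNat

noncomputable def V {k : ℕ} (N : ℕ) (t : Fin k → ℤ × ℤ × ℤ) : ℤ[X] :=
  ∑ i, C (t i).2.2 * X ^ ((t i).1 + N).toNat

/-- The finite set of tuples. -/
noncomputable def Box (k N B : ℕ) : Finset (Fin k → ℤ × ℤ × ℤ) :=
  Fintype.piFinset fun _ => Icc (-(N : ℤ)) N ×ˢ Icc (-(4 ^ B : ℤ)) (4 ^ B) ×ˢ
    Icc (-(4 ^ B : ℤ)) (4 ^ B)

theorem card_Box (k N B : ℕ) :
    (Box k N B).card = ((2 * N + 1) * ((2 * 4 ^ B + 1) * (2 * 4 ^ B + 1))) ^ k := by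
  unfold Box
  rw [Fintype.card_piFinset]
  simp only [card_product, Int.card_Icc, prod_const, card_univ, Fintype.card_fin]
  congr 2
  · omega
  · have h : ((4 : ℤ) ^ B + 1 - -4 ^ B).toNat = 2 * 4 ^ B + 1 := by
      have : (4 : ℤ) ^ B + 1 - -4 ^ B = ((2 * 4 ^ B + 1 : ℕ) : ℤ) := by push_cast; ring
      rw [this, Int.toNat_natCast]
    rw [h]

theorem exists_tuple {k N B : ℕ} {c : ℤ →₀ ℂ} (h : Admissible k N B c) :
    ∃ t ∈ Box k N B, T B t = c := by
  classical
  let e : Fin k ≃ c.support := (c.support.equivFinOfCardEq h.card).symm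
  choose a b hab using h.grid
  have hnorm : ∀ ω (hω : ω ∈ c.support), ‖((a ω hω : ℂ) + b ω hω * I)‖ ≤ 4 ^ B := by
    intro ω hω
    have h1 := h.upper ω hω
    rw [hab ω hω, norm_div] at h1
    have h2 : ‖(2 : ℂ) ^ B‖ = 2 ^ B := by simp
    rw [h2, div_le_iff₀ (by positivity)] at h1
    calc _ ≤ (2 : ℝ) ^ B * 2 ^ B := h1
      _ = 4 ^ B := by rw [← mul_pow]; norm_num
  have hre : ∀ ω (hω : ω ∈ c.support), |a ω hω| ≤ 4 ^ B := by
    intro ω hω
    have := (abs_re_le_norm _).trans (hnorm ω hω)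
    simp at this
    exact_mod_cast this
  have him : ∀ ω (hω : ω ∈ c.support), |b ω hω| ≤ 4 ^ B := by
    intro ω hω
    have := (abs_im_le_norm _).trans (hnorm ω hω)
    simp at this
    exact_mod_cast this
  refine ⟨fun i => ((e i : ℤ), a _ (e i).2, b _ (e i).2), ?_, ?_⟩
  · unfold Box
    rw [Fintype.mem_piFinset]
    intro i
    rw [mem_product, mem_product, mem_Icc, mem_Icc, mem_Icc]
    have h1 := abs_le.1 (h.freq _ (e i).2)
    have h2 := abs_le.1 (hre _ (e i).2)
    have h3 := abs_le.1 (him _ (e i).2)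
    exact ⟨h1, h2, h3⟩
  · unfold T
    have h1 : ∀ i : Fin k, Finsupp.single ((e i : ℤ))
        (((a _ (e i).2 : ℂ) + b _ (e i).2 * I) / 2 ^ B) =
        (fun x : c.support => Finsupp.single (x : ℤ) (c x)) (e i) := by
      intro i
      simp only
      rw [hab _ (e i).2]
    rw [Finset.sum_congr rfl (fun i _ => h1 i)]
    rw [Equiv.sum_comp e (fun x : c.support => Finsupp.single (x : ℤ) (c x))]
    rw [Finset.sum_coe_sort c.support (fun x => Finsupp.single x (c x))]
    exact Finsupp.sum_single c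

theorem value_T {k : ℕ} (B : ℕ) (t : Fin k → ℤ × ℤ × ℤ) (x : ℝ) :
    value (T B t) x = ∑ i, (((t i).2.1 : ℂ) + (t i).2.2 * I) / 2 ^ B *
      exp (I * ((t i).1 : ℂ) * x) := by
  unfold value T
  rw [← Finsupp.sum_finsetSum_index]
  · apply Finset.sum_congr rfl
    intro i _
    rw [Finsupp.sum_single_index]
    simp
  · intro a; simp
  · intro a b c; ring

theorem eval_UV {k N B : ℕ} {t : Fin k → ℤ × ℤ × ℤ} (ht : t ∈ Box k N B) (x : ℝ) :
    ((U N t).map (Int.castRingHom ℂ)).eval (exp (I * x)) +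
      I * ((V N t).map (Int.castRingHom ℂ)).eval (exp (I * x)) =
    2 ^ B * exp (I * N * x) * value (T B t) x := by
  rw [value_T]
  unfold U V
  simp only [Polynomial.map_sum, eval_finsetSum, Polynomial.map_mul, Polynomial.map_pow, map_C,
    map_X, eval_mul, eval_C, eval_pow, eval_X, mul_sum, ← sum_add_distrib]
  apply Finset.sum_congr rfl
  intro i _
  unfold Box at ht
  rw [Fintype.mem_piFinset] at ht
  have h1 := ht i
  rw [mem_product, mem_Icc] at h1
  have h2 : (0 : ℤ) ≤ (t i).1 + N := by linarith [h1.1.1]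
  have h3 : ((((t i).1 + N).toNat : ℕ) : ℂ) = ((t i).1 : ℂ) + N := by
    have : ((((t i).1 + N).toNat : ℤ)) = (t i).1 + N := Int.toNat_of_nonneg h2
    have h4 : ((((t i).1 + N).toNat : ℤ) : ℂ) = (((t i).1 + N : ℤ) : ℂ) := by rw [this]
    push_cast at h4
    exact h4
  rw [← Complex.exp_nat_mul, h3]
  have h5 : (2 : ℂ) ^ B ≠ 0 := pow_ne_zero _ two_ne_zero
  have h6 : exp ((((t i).1 : ℂ) + N) * (I * x)) = exp (I * N * x) * exp (I * ((t i).1 : ℂ) * x) := by
    rw [← Complex.exp_add]; congr 1; ring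
  rw [h6]
  field_simp
  simp

theorem coeff_U {k N B : ℕ} {t : Fin k → ℤ × ℤ × ℤ} (ht : t ∈ Box k N B) (ω : ℤ)
    (hω : -(N : ℤ) ≤ ω) :
    (T B t) ω = (((U N t).coeff (ω + N).toNat : ℂ) + (V N t).coeff (ω + N).toNat * I) / 2 ^ B := by
  unfold T U V
  rw [Finsupp.finsetSum_apply, finsetSum_coeff, finsetSum_coeff]
  push_cast
  rw [Finset.sum_mul, ← sum_add_distrib, Finset.sum_div]
  apply Finset.sum_congr rfl
  intro i _
  unfold Box at ht
  rw [Fintype.mem_piFinset] at ht
  have h1 := ht i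
  rw [mem_product, mem_Icc] at h1
  rw [Finsupp.single_apply, coeff_C_mul_X_pow, coeff_C_mul_X_pow]
  by_cases h : (t i).1 = ω
  · rw [if_pos h, if_pos (by rw [h]), if_pos (by rw [h])]
  · have h2 : ¬ (ω + N).toNat = ((t i).1 + N).toNat := by omega
    rw [if_neg h, if_neg h2, if_neg h2]
    simp

theorem T_eq_zero {k N B : ℕ} {t : Fin k → ℤ × ℤ × ℤ} (ht : t ∈ Box k N B) (ω : ℤ)
    (hω : ¬ -(N : ℤ) ≤ ω) : (T B t) ω = 0 := by
  unfold T
  rw [Finsupp.finsetSum_apply]
  apply Finset.sum_eq_zero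
  intro i _
  unfold Box at ht
  rw [Fintype.mem_piFinset] at ht
  have h1 := ht i
  rw [mem_product, mem_Icc] at h1
  rw [Finsupp.single_apply, if_neg]
  intro h
  exact hω (by rw [← h]; exact h1.1.1)

/-- The integer polynomial attached to two tuples. -/
noncomputable def RR {k : ℕ} (N : ℕ) (t t' : Fin k → ℤ × ℤ × ℤ) : ℤ[X] :=
  (U N t - U N t') ^ 2 + (V N t - V N t') ^ 2

theorem RR_ne {k N B : ℕ} {t t' : Fin k → ℤ × ℤ × ℤ} (ht : t ∈ Box k N B) (ht' : t' ∈ Box k N B)
    (h : T B t ≠ T B t') : RR N t t' ≠ 0 := by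
  intro h0
  apply h
  have key : ∀ u v : ℤ[X], u ^ 2 + v ^ 2 = 0 → u = 0 ∧ v = 0 := by
    intro u v huv
    have h1 : ∀ x : ℤ, u.eval x = 0 ∧ v.eval x = 0 := by
      intro x
      have := congrArg (Polynomial.eval x) huv
      simp at this
      constructor <;> nlinarith [sq_nonneg (u.eval x), sq_nonneg (v.eval x)]
    exact ⟨Polynomial.funext (fun x => by simpa using (h1 x).1),
      Polynomial.funext (fun x => by simpa using (h1 x).2)⟩
  obtain ⟨h1, h2⟩ := key _ _ h0
  have hU : U N t = U N t' := sub_eq_zero.1 h1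
  have hV : V N t = V N t' := sub_eq_zero.1 h2
  ext ω
  by_cases hω : -(N : ℤ) ≤ ω
  · rw [coeff_U ht ω hω, coeff_U ht' ω hω, hU, hV]
  · rw [T_eq_zero ht ω hω, T_eq_zero ht' ω hω]

theorem natDegree_UV {k N B : ℕ} {t : Fin k → ℤ × ℤ × ℤ} (ht : t ∈ Box k N B) :
    (U N t).natDegree ≤ 2 * N ∧ (V N t).natDegree ≤ 2 * N := by
  unfold Box at ht
  rw [Fintype.mem_piFinset] at ht
  constructor
  · unfold U
    apply natDegree_sum_le_of_forall_le
    intro i _
    have h1 := ht i
    rw [mem_product, mem_Icc] at h1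
    refine (natDegree_C_mul_X_pow_le _ _).trans ?_
    omega
  · unfold V
    apply natDegree_sum_le_of_forall_le
    intro i _
    have h1 := ht i
    rw [mem_product, mem_Icc] at h1
    refine (natDegree_C_mul_X_pow_le _ _).trans ?_
    omega

theorem natDegree_RR {k N B : ℕ} {t t' : Fin k → ℤ × ℤ × ℤ} (ht : t ∈ Box k N B)
    (ht' : t' ∈ Box k N B) : (RR N t t').natDegree ≤ 4 * N := by
  obtain ⟨h1, h2⟩ := natDegree_UV ht
  obtain ⟨h3, h4⟩ := natDegree_UV ht'
  unfold RR
  refine (natDegree_add_le _ _).trans (max_le ?_ ?_)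
  · refine natDegree_pow_le.trans ?_
    have := (natDegree_sub_le (U N t) (U N t')).trans (max_le h1 h3)
    omega
  · refine natDegree_pow_le.trans ?_
    have := (natDegree_sub_le (V N t) (V N t')).trans (max_le h2 h4)
    omega

theorem norm_UV {k N B : ℕ} {t : Fin k → ℤ × ℤ × ℤ} (ht : t ∈ Box k N B) {ζ : ℂ} (hζ : ‖ζ‖ = 1) :
    ‖((U N t).map (Int.castRingHom ℂ)).eval ζ‖ ≤ k * 4 ^ B ∧
    ‖((V N t).map (Int.castRingHom ℂ)).eval ζ‖ ≤ k * 4 ^ B := by
  unfold Box at ht
  rw [Fintype.mem_piFinset] at ht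
  constructor
  · unfold U
    simp only [Polynomial.map_sum, eval_finsetSum, Polynomial.map_mul, Polynomial.map_pow, map_C,
      map_X, eval_mul, eval_C, eval_pow, eval_X]
    refine (norm_sum_le _ _).trans ?_
    refine (Finset.sum_le_card_nsmul _ _ (4 ^ B) ?_).trans ?_
    · intro i _
      have h1 := ht i
      rw [mem_product, mem_product, mem_Icc, mem_Icc, mem_Icc] at h1
      rw [norm_mul, norm_pow, hζ, one_pow, mul_one]
      simp only [eq_intCast, Complex.norm_intCast]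
      exact_mod_cast abs_le.2 h1.2.1
    · simp
  · unfold V
    simp only [Polynomial.map_sum, eval_finsetSum, Polynomial.map_mul, Polynomial.map_pow, map_C,
      map_X, eval_mul, eval_C, eval_pow, eval_X]
    refine (norm_sum_le _ _).trans ?_
    refine (Finset.sum_le_card_nsmul _ _ (4 ^ B) ?_).trans ?_
    · intro i _
      have h1 := ht i
      rw [mem_product, mem_product, mem_Icc, mem_Icc, mem_Icc] at h1
      rw [norm_mul, norm_pow, hζ, one_pow, mul_one]
      simp only [eq_intCast, Complex.norm_intCast]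
      exact_mod_cast abs_le.2 h1.2.2
    · simp

/-- The numbers of the sample points at which two polynomials are close. -/
noncomputable def bad {k : ℕ} (B p : ℕ) (ε : ℝ) (t t' : Fin k → ℤ × ℤ × ℤ) : Finset ℕ :=
  open Classical in
  (Ico 1 p).filter (fun a => ‖value (T B t) (pt p a) - value (T B t') (pt p a)‖ ≤ ε)

theorem card_bad {k N B p : ℕ} (hp : p.Prime) (hpN : 4 * N + 1 < p) (hk : 1 ≤ k)
    {t t' : Fin k → ℤ × ℤ × ℤ}
    (ht : t ∈ Box k N B) (ht' : t' ∈ Box k N B) (h : T B t ≠ T B t') {ε : ℝ} (hε : 0 < ε)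
    (hε1 : ε < 1) :
    ((bad B p ε t t').card : ℝ) * Real.log (1 / ε) ≤
      2 * (p - 1) * Real.log (4 * k * 4 ^ B) := by
  set H : ℝ := 4 * k * 4 ^ B with hH
  have hk' : (1 : ℝ) ≤ k := by exact_mod_cast hk
  have h4 : (1 : ℝ) ≤ 4 ^ B := one_le_pow₀ (by norm_num)
  have hH1 : 1 ≤ H := by
    have : (1 : ℝ) ≤ k * 4 ^ B := by nlinarith
    rw [hH]; nlinarith
  have hprod := one_le_prod hp (RR N t t') (RR_ne ht ht' h) (by
    have := natDegree_RR ht ht'
    omega)
  rw [prod_primitive hp (fun ζ => ‖((RR N t t').map (Int.castRingHom ℂ)).eval ζ‖)] at hprod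
  set A := bad B p ε t t' with hA
  have hAs : A ⊆ Ico 1 p := by rw [hA]; unfold bad; exact filter_subset _ _
  -- pointwise bounds
  have hb : ∀ a ∈ Ico 1 p, ‖((RR N t t').map (Int.castRingHom ℂ)).eval (zt p a)‖ ≤
      if a ∈ A then ε * H ^ 2 else H ^ 2 := by
    intro a ha
    have hζ := norm_zt p a
    obtain ⟨b1, b2⟩ := norm_UV ht hζ
    obtain ⟨b3, b4⟩ := norm_UV ht' hζ
    set u := ((U N t).map (Int.castRingHom ℂ)).eval (zt p a) with hu
    set v := ((V N t).map (Int.castRingHom ℂ)).eval (zt p a) with hv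
    set u' := ((U N t').map (Int.castRingHom ℂ)).eval (zt p a) with hu'
    set v' := ((V N t').map (Int.castRingHom ℂ)).eval (zt p a) with hv'
    have e : ((RR N t t').map (Int.castRingHom ℂ)).eval (zt p a) =
        ((u + I * v) - (u' + I * v')) * ((u - I * v) - (u' - I * v')) := by
      unfold RR
      simp only [Polynomial.map_add, Polynomial.map_pow, Polynomial.map_sub, eval_add, eval_pow,
        eval_sub]
      rw [← hu, ← hv, ← hu', ← hv']
      have : I ^ 2 = -1 := I_sq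
      linear_combination ((v - v') ^ 2) * this
    have n1 : ‖(u - I * v) - (u' - I * v')‖ ≤ H := by
      refine (norm_sub_le _ _).trans ?_
      have := norm_sub_le u (I * v)
      have h3 := norm_sub_le u' (I * v')
      rw [norm_mul, norm_I, one_mul] at this h3
      rw [hH]; nlinarith
    have n2 : ‖(u + I * v) - (u' + I * v')‖ ≤ H := by
      refine (norm_sub_le _ _).trans ?_
      have := norm_add_le u (I * v)
      have h3 := norm_add_le u' (I * v')
      rw [norm_mul, norm_I, one_mul] at this h3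
      rw [hH]; nlinarith
    rw [e, norm_mul]
    split_ifs with hmem
    · have hval : ‖(u + I * v) - (u' + I * v')‖ ≤ ε * H := by
        have e1 := eval_UV ht (pt p a)
        have e2 := eval_UV ht' (pt p a)
        have : (u + I * v) - (u' + I * v') = 2 ^ B * exp (I * N * (pt p a)) *
            (value (T B t) (pt p a) - value (T B t') (pt p a)) := by
          rw [mul_sub, ← e1, ← e2]; rfl
        rw [this, norm_mul, norm_mul]
        have n3 : ‖exp (I * N * (pt p a))‖ = 1 := by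
          have : I * N * (pt p a) = ((N * pt p a : ℝ) : ℂ) * I := by push_cast; ring
          rw [this]; exact norm_exp_ofReal_mul_I _
        have n4 : ‖(2 : ℂ) ^ B‖ = 2 ^ B := by simp
        rw [n3, n4, mul_one]
        have n5 : ‖value (T B t) (pt p a) - value (T B t') (pt p a)‖ ≤ ε := by
          rw [hA] at hmem; unfold bad at hmem
          exact (mem_filter.1 hmem).2
        have n6 : (2 : ℝ) ^ B ≤ H := by
          have : (2 : ℝ) ^ B ≤ 4 ^ B := pow_le_pow_left₀ (by norm_num) (by norm_num) _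
          rw [hH]; nlinarith
        calc (2 : ℝ) ^ B * _ ≤ H * ε := mul_le_mul n6 n5 (norm_nonneg _) (by linarith)
          _ = ε * H := by ring
      calc _ ≤ (ε * H) * H := mul_le_mul hval n1 (norm_nonneg _) (by positivity)
        _ = ε * H ^ 2 := by ring
    · calc _ ≤ H * H := mul_le_mul n2 n1 (norm_nonneg _) (by positivity)
        _ = H ^ 2 := by ring
  have h5 : (1 : ℝ) ≤ ∏ a ∈ Ico 1 p, (if a ∈ A then ε * H ^ 2 else H ^ 2) :=
    hprod.trans (Finset.prod_le_prod (fun _ _ => norm_nonneg _) hb)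
  have h6 : ∏ a ∈ Ico 1 p, (if a ∈ A then ε * H ^ 2 else H ^ 2) =
      ε ^ A.card * (H ^ 2) ^ (p - 1) := by
    have : ∀ a ∈ Ico 1 p, (if a ∈ A then ε * H ^ 2 else H ^ 2) =
        (if a ∈ A then ε else 1) * H ^ 2 := by
      intro a _
      split_ifs <;> ring
    rw [Finset.prod_congr rfl this, Finset.prod_mul_distrib, Finset.prod_const, Nat.card_Ico,
      Finset.prod_ite_mem, Finset.prod_const, Finset.inter_eq_right.2 hAs]
  rw [h6] at h5
  have h7 := Real.log_le_log one_pos h5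
  rw [Real.log_one, Real.log_mul (by positivity) (by positivity), Real.log_pow, Real.log_pow,
    Real.log_pow] at h7
  have h8 : ((p - 1 : ℕ) : ℝ) = (p : ℝ) - 1 := by
    rw [Nat.cast_sub hp.one_le]; simp
  rw [h8] at h7
  rw [one_div, Real.log_inv]
  push_cast at h7
  linarith

/-- Counting: some sequence of `n` sample points separates all pairs. -/
theorem exists_points {k N B p n : ℕ} (hp : p.Prime) (hpN : 4 * N + 1 < p) (hk : 1 ≤ k) {ε ρ : ℝ}
    (hε : 0 < ε) (hε1 : ε < 1) (hρ : 0 ≤ ρ)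
    (hlog : 2 * Real.log (4 * k * 4 ^ B) ≤ ρ * Real.log (1 / ε))
    (hn : ((Box k N B).card : ℝ) ^ 2 * ρ ^ n < 1) :
    ∃ x : Fin n → ℕ, (∀ i, x i ∈ Ico 1 p) ∧ ∀ t ∈ Box k N B, ∀ t' ∈ Box k N B, T B t ≠ T B t' →
      ∃ i, ε < ‖value (T B t) (pt p (x i)) - value (T B t') (pt p (x i))‖ := by
  classical
  by_contra hcon
  push Not at hcon
  have hp1 : (0 : ℝ) < (p : ℝ) - 1 := by
    have : (1 : ℝ) < p := by exact_mod_cast hp.one_lt
    linarith
  have hle : 0 < Real.log (1 / ε) := Real.log_pos (by rw [lt_div_iff₀ hε]; linarith)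
  have hbad : ∀ t ∈ Box k N B, ∀ t' ∈ Box k N B, T B t ≠ T B t' →
      ((bad B p ε t t').card : ℝ) ≤ ρ * (p - 1) := by
    intro t ht t' ht' hne
    have h1 := card_bad hp hpN hk ht ht' hne hε hε1
    have h2 : ((bad B p ε t t').card : ℝ) * Real.log (1 / ε) ≤
        (ρ * (p - 1)) * Real.log (1 / ε) := by
      calc _ ≤ 2 * (p - 1) * Real.log (4 * k * 4 ^ B) := h1
        _ = (p - 1) * (2 * Real.log (4 * k * 4 ^ B)) := by ring
        _ ≤ (p - 1) * (ρ * Real.log (1 / ε)) := mul_le_mul_of_nonneg_left hlog hp1.le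
        _ = _ := by ring
    exact le_of_mul_le_mul_right h2 hle
  -- the sequences
  set X : Finset (Fin n → ℕ) := Fintype.piFinset fun _ => Ico 1 p with hX
  set P : Finset ((Fin k → ℤ × ℤ × ℤ) × (Fin k → ℤ × ℤ × ℤ)) :=
    ((Box k N B) ×ˢ (Box k N B)).filter (fun q => T B q.1 ≠ T B q.2) with hP
  have hsub : X ⊆ P.biUnion (fun q => Fintype.piFinset fun _ => bad B p ε q.1 q.2) := by
    intro x hx
    rw [hX, Fintype.mem_piFinset] at hx
    obtain ⟨t, ht, t', ht', hne, hall⟩ := hcon x hx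
    rw [mem_biUnion]
    refine ⟨(t, t'), ?_, ?_⟩
    · rw [hP, mem_filter, mem_product]
      exact ⟨⟨ht, ht'⟩, hne⟩
    · rw [Fintype.mem_piFinset]
      intro i
      unfold bad
      rw [mem_filter]
      exact ⟨hx i, hall i⟩
  have hc1 : (X.card : ℝ) = (p - 1 : ℝ) ^ n := by
    rw [hX, Fintype.card_piFinset]
    simp only [Nat.card_Ico, prod_const, card_univ, Fintype.card_fin]
    push_cast [Nat.cast_sub hp.one_le]
    rfl
  have hc2 : (X.card : ℝ) ≤ ((Box k N B).card : ℝ) ^ 2 * (ρ * (p - 1)) ^ n := by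
    calc (X.card : ℝ) ≤ ((P.biUnion (fun q => Fintype.piFinset fun _ => bad B p ε q.1 q.2)).card : ℝ) := by
          exact_mod_cast card_le_card hsub
      _ ≤ ∑ q ∈ P, ((Fintype.piFinset fun _ : Fin n => bad B p ε q.1 q.2).card : ℝ) := by
          exact_mod_cast card_biUnion_le
      _ ≤ ∑ q ∈ P, (ρ * (p - 1)) ^ n := by
          apply Finset.sum_le_sum
          intro q hq
          rw [hP, mem_filter, mem_product] at hq
          rw [Fintype.card_piFinset]
          simp only [prod_const, card_univ, Fintype.card_fin]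
          push_cast
          exact pow_le_pow_left₀ (Nat.cast_nonneg _) (hbad _ hq.1.1 _ hq.1.2 hq.2) _
      _ = (P.card : ℝ) * (ρ * (p - 1)) ^ n := by rw [Finset.sum_const, nsmul_eq_mul]
      _ ≤ ((Box k N B).card : ℝ) ^ 2 * (ρ * (p - 1)) ^ n := by
          apply mul_le_mul_of_nonneg_right _ (by positivity)
          have : P.card ≤ ((Box k N B) ×ˢ (Box k N B)).card := by
            rw [hP]; exact card_filter_le _ _
          rw [card_product] at this
          rw [sq]
          exact_mod_cast this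
  rw [hc1, mul_pow] at hc2
  have hpos : (0 : ℝ) < (p - 1 : ℝ) ^ n := by positivity
  have : (1 : ℝ) * (p - 1 : ℝ) ^ n ≤ ((Box k N B).card : ℝ) ^ 2 * ρ ^ n * (p - 1 : ℝ) ^ n := by
    calc (1 : ℝ) * (p - 1 : ℝ) ^ n = (p - 1 : ℝ) ^ n := one_mul _
      _ ≤ _ := hc2
      _ = _ := by ring
  have := le_of_mul_le_mul_right this hpos
  linarith

theorem logb_four_mul_le {N k B : ℕ} (hN : 1 ≤ N) (hk : 1 ≤ k) (hkN : k ≤ N) (hB : 1 ≤ B) :
    Real.log (4 * k * 4 ^ B) ≤ 4 * (Real.logb 2 N + B) * Real.log 2 := by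
  have h2 : (0 : ℝ) < Real.log 2 := Real.log_pos (by norm_num)
  have hk' : (1 : ℝ) ≤ k := by exact_mod_cast hk
  have hkN' : (k : ℝ) ≤ N := by exact_mod_cast hkN
  have hB' : (1 : ℝ) ≤ B := by exact_mod_cast hB
  rw [Real.log_mul (by positivity) (by positivity), Real.log_mul (by norm_num) (by positivity),
    Real.log_pow]
  have h4 : Real.log 4 = 2 * Real.log 2 := by
    rw [show (4 : ℝ) = 2 ^ 2 by norm_num, Real.log_pow]; norm_num
  have h5 : Real.log k ≤ Real.log N := Real.log_le_log (by linarith) hkN'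
  have h6 : Real.logb 2 N * Real.log 2 = Real.log N := by
    unfold Real.logb; field_simp
  have h7 : 0 ≤ Real.log N := Real.log_natCast_nonneg N
  rw [h4]
  nlinarith

theorem card_Box_le {N k B : ℕ} (hN : 1 ≤ N) (hB : 1 ≤ B) :
    ((Box k N B).card : ℝ) ≤ (2 : ℝ) ^ ((10 : ℝ) * k * (Real.logb 2 N + B)) := by
  have hN' : (1 : ℝ) ≤ N := by exact_mod_cast hN
  have hB' : (1 : ℝ) ≤ B := by exact_mod_cast hB
  have hlog : 0 ≤ Real.logb 2 N := Real.logb_nonneg (by norm_num) hN'
  have h4 : (1 : ℝ) ≤ 4 ^ B := one_le_pow₀ (by norm_num)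
  rw [card_Box]
  push_cast
  have e : (2 : ℝ) ^ ((10 : ℝ) * k * (Real.logb 2 N + B)) =
      ((2 : ℝ) ^ ((10 : ℝ) * (Real.logb 2 N + B))) ^ k := by
    rw [← Real.rpow_natCast, ← Real.rpow_mul (by norm_num)]
    congr 1; ring
  rw [e]
  apply pow_le_pow_left₀ (by positivity)
  have h1 : (2 * (N : ℝ) + 1) ≤ 4 * N := by linarith
  have h2 : (2 * (4 : ℝ) ^ B + 1) ≤ 4 * 4 ^ B := by linarith
  calc (2 * (N : ℝ) + 1) * ((2 * 4 ^ B + 1) * (2 * 4 ^ B + 1))
      ≤ (4 * N) * ((4 * 4 ^ B) * (4 * 4 ^ B)) := by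
        apply mul_le_mul h1 _ (by positivity) (by positivity)
        exact mul_le_mul h2 h2 (by positivity) (by positivity)
    _ = (2 : ℝ) ^ (6 + Real.logb 2 N + 4 * B) := by
        rw [Real.rpow_add (by norm_num), Real.rpow_add (by norm_num),
          Real.rpow_logb (by norm_num) (by norm_num) (by linarith)]
        have : (2 : ℝ) ^ ((4 : ℝ) * B) = 4 ^ B * 4 ^ B := by
          rw [← mul_pow, show ((4 : ℝ) * B) = ((4 * B : ℕ) : ℝ) by push_cast; ring,
            Real.rpow_natCast, pow_mul]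
          norm_num
        rw [this, show ((6 : ℝ)) = ((6 : ℕ) : ℝ) by norm_num, Real.rpow_natCast]
        norm_num
        ring
    _ ≤ _ := by
        apply Real.rpow_le_rpow_of_exponent_le (by norm_num)
        nlinarith

/-- For every `η > 0` there is a constant `C₀` such that, with words of
`w = ⌈C₀ (log₂ N + B)⌉` bits, for all parameters there is a set of at most
`η k (log₂ N + B) + 1` sample points such that the answers of the oracle at these points
determine the admissible trigonometric polynomial. -/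
theorem result (η : ℝ) (hη : 0 < η) : ∃ C₀ : ℝ, 2 ≤ C₀ ∧
    ∀ k N B : ℕ, 1 ≤ k → k ≤ N → 1 ≤ B →
    ∃ S : Finset (ℕ × ℕ), (S.card : ℝ) ≤ η * k * (Real.logb 2 N + B) + 1 ∧
      (∀ q ∈ S, q.1 < q.2 ∧ q.2 < 2 ^ wordLength C₀ N B) ∧
      ∀ c c' : ℤ →₀ ℂ, Admissible k N B c → Admissible k N B c' → c ≠ c' →
        ∀ O O' : ℕ × ℕ → ℤ × ℤ,
          (∀ q ∈ S, IsNearest (wordLength C₀ N B) (value c (2 * Real.pi * q.1 / q.2)) (O q)) →
          (∀ q ∈ S, IsNearest (wordLength C₀ N B) (value c' (2 * Real.pi * q.1 / q.2)) (O' q)) →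
          ∃ q ∈ S, O q ≠ O' q := by
  classical
  set C₀ : ℝ := 20 * (2 : ℝ) ^ ((22 : ℝ) / η) with hC₀
  have hpow1 : (1 : ℝ) ≤ (2 : ℝ) ^ ((22 : ℝ) / η) := Real.one_le_rpow (by norm_num) (by positivity)
  have hC20 : 20 ≤ C₀ := by rw [hC₀]; linarith
  refine ⟨C₀, by linarith, ?_⟩
  intro k N B hk hkN hB
  have hN : 1 ≤ N := hk.trans hkN
  have hk' : (1 : ℝ) ≤ k := by exact_mod_cast hk
  have hN' : (1 : ℝ) ≤ N := by exact_mod_cast hN
  have hB' : (1 : ℝ) ≤ B := by exact_mod_cast hB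
  have hlog : 0 ≤ Real.logb 2 N := Real.logb_nonneg (by norm_num) hN'
  set w := wordLength C₀ N B with hw
  set Z : ℝ := Real.logb 2 N + B with hZ
  have hZ1 : 1 ≤ Z := by rw [hZ]; linarith
  have hwZ : C₀ * Z ≤ w := by rw [hw]; unfold wordLength; exact Nat.le_ceil _
  -- the prime
  obtain ⟨p, hp, hp1, hp2⟩ := Nat.exists_prime_lt_and_le_two_mul (4 * N + 1) (by omega)
  have hpw : p < 2 ^ w := by
    have h1 : (p : ℝ) ≤ 16 * N := by
      have : p ≤ 16 * N := by omega
      exact_mod_cast this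
    have h2 : (16 : ℝ) * N < 2 ^ w := by
      calc (16 : ℝ) * N = (2 : ℝ) ^ (4 + Real.logb 2 N) := by
            rw [Real.rpow_add (by norm_num), Real.rpow_logb (by norm_num) (by norm_num)
              (by linarith)]
            norm_num
        _ < (2 : ℝ) ^ (w : ℝ) := by
            apply Real.rpow_lt_rpow_of_exponent_lt (by norm_num)
            nlinarith
        _ = 2 ^ w := Real.rpow_natCast _ _
    exact_mod_cast h1.trans_lt h2
  -- the parameters
  set ε : ℝ := 2 / 2 ^ w with hε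
  have hε0 : 0 < ε := by rw [hε]; positivity
  have hlog2 : (0 : ℝ) < Real.log 2 := Real.log_pos (by norm_num)
  have hw2 : (2 : ℝ) ≤ w := by nlinarith
  have hlogε : Real.log (1 / ε) = ((w : ℝ) - 1) * Real.log 2 := by
    rw [hε, one_div_div, Real.log_div (by positivity) (by norm_num), Real.log_pow]
    ring
  have hε1 : ε < 1 := by
    have h1 : 0 < Real.log (1 / ε) := by rw [hlogε]; nlinarith
    rw [one_div, Real.log_inv] at h1
    by_contra h2
    push Not at h2
    have := Real.log_nonneg h2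
    linarith
  set ρ : ℝ := 10 / C₀ with hρ
  have hρ0 : 0 < ρ := by rw [hρ]; positivity
  have hlogle : 2 * Real.log (4 * k * 4 ^ B) ≤ ρ * Real.log (1 / ε) := by
    have h1 := logb_four_mul_le hN hk hkN hB
    rw [hlogε]
    have h2 : 8 * Z ≤ ρ * ((w : ℝ) - 1) := by
      rw [hρ, div_mul_eq_mul_div, le_div_iff₀ (by linarith)]
      nlinarith
    calc 2 * Real.log (4 * k * 4 ^ B) ≤ 2 * (4 * Z * Real.log 2) := by
          rw [hZ]; linarith
      _ = (8 * Z) * Real.log 2 := by ring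
      _ ≤ (ρ * ((w : ℝ) - 1)) * Real.log 2 := mul_le_mul_of_nonneg_right h2 hlog2.le
      _ = _ := by ring
  set n : ℕ := ⌈η * k * Z⌉₊ with hn
  have hnle : η * k * Z ≤ n := Nat.le_ceil _
  have hcount : ((Box k N B).card : ℝ) ^ 2 * ρ ^ n < 1 := by
    have h1 := card_Box_le (k := k) hN hB
    have h2 : ((Box k N B).card : ℝ) ^ 2 ≤ (2 : ℝ) ^ ((20 : ℝ) * k * Z) := by
      calc ((Box k N B).card : ℝ) ^ 2 ≤ ((2 : ℝ) ^ ((10 : ℝ) * k * (Real.logb 2 N + B))) ^ 2 :=
            pow_le_pow_left₀ (Nat.cast_nonneg _) h1 _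
        _ = _ := by
            rw [← Real.rpow_natCast, ← Real.rpow_mul (by norm_num)]
            congr 1; push_cast; rw [hZ]; ring
    have h3 : ρ ≤ (2 : ℝ) ^ (-((22 : ℝ) / η)) := by
      rw [Real.rpow_neg (by norm_num), hρ, hC₀, div_le_iff₀ (by positivity)]
      have h7 : ((2 : ℝ) ^ ((22 : ℝ) / η)) ≠ 0 := by positivity
      rw [mul_comm (20 : ℝ), ← mul_assoc, inv_mul_cancel₀ h7]
      norm_num
    have h4 : ρ ^ n ≤ (2 : ℝ) ^ (-((22 : ℝ) * k * Z)) := by
      calc ρ ^ n ≤ ((2 : ℝ) ^ (-((22 : ℝ) / η))) ^ n := pow_le_pow_left₀ hρ0.le h3 _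
        _ = (2 : ℝ) ^ (-((22 : ℝ) / η) * n) := by
            rw [Real.rpow_mul (by norm_num), Real.rpow_natCast]
        _ ≤ (2 : ℝ) ^ (-((22 : ℝ) * k * Z)) := by
            apply Real.rpow_le_rpow_of_exponent_le (by norm_num)
            have : (22 : ℝ) * k * Z = (22 / η) * (η * k * Z) := by field_simp
            rw [this]
            have h8 : (22 / η) * (η * k * Z) ≤ (22 / η) * n :=
              mul_le_mul_of_nonneg_left hnle (by positivity)
            linarith
    calc ((Box k N B).card : ℝ) ^ 2 * ρ ^ n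
        ≤ (2 : ℝ) ^ ((20 : ℝ) * k * Z) * (2 : ℝ) ^ (-((22 : ℝ) * k * Z)) :=
          mul_le_mul h2 h4 (by positivity) (by positivity)
      _ = (2 : ℝ) ^ (-(2 * k * Z)) := by
          rw [← Real.rpow_add (by norm_num)]; congr 1; ring
      _ < 1 := by
          apply Real.rpow_lt_one_of_one_lt_of_neg (by norm_num)
          have : 0 < 2 * k * Z := by positivity
          linarith
  obtain ⟨x, hx1, hx2⟩ := exists_points hp (by omega) hk hε0 hε1 hρ0.le hlogle hcount
  refine ⟨Finset.univ.image (fun i => (x i, p)), ?_, ?_, ?_⟩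
  · have h1 : ((Finset.univ.image (fun i => (x i, p))).card : ℝ) ≤ n := by
      have := Finset.card_image_le (s := (Finset.univ : Finset (Fin n))) (f := fun i => (x i, p))
      rw [card_univ, Fintype.card_fin] at this
      exact_mod_cast this
    have h2 : (n : ℝ) ≤ η * k * Z + 1 := by
      have := Nat.ceil_lt_add_one (a := η * k * Z) (by positivity)
      rw [← hn] at this
      linarith
    exact h1.trans h2
  · intro q hq
    obtain ⟨i, _, rfl⟩ := Finset.mem_image.1 hq
    have := mem_Ico.1 (hx1 i)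
    exact ⟨this.2, hpw⟩
  · intro c c' hc hc' hne O O' hO hO'
    obtain ⟨t, ht, htc⟩ := exists_tuple hc
    obtain ⟨t', ht', htc'⟩ := exists_tuple hc'
    obtain ⟨i, hi⟩ := hx2 t ht t' ht' (by rw [htc, htc']; exact hne)
    have hmem : (x i, p) ∈ Finset.univ.image (fun i => (x i, p)) :=
      Finset.mem_image.2 ⟨i, Finset.mem_univ _, rfl⟩
    refine ⟨(x i, p), hmem, ?_⟩
    intro heq
    have h1 := hO _ hmem
    have h2 := hO' _ hmem
    rw [← heq] at h2
    have h3 := close_of_same h1 h2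
    rw [htc, htc'] at hi
    unfold pt at hi
    simp only at h3
    rw [← hε] at h3
    linarith

end Pool.Agent.Results.MP_66dcb2_lc.SampleBound
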