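import Pool.Agent.H940_ver.HoldsE

/-!
# Deterministic verification of sparse trigonometric polynomials in time `k · polylog`

The definitions used in the statement are in the files `Pool/Agent/H940_dft/Model.lean` (the word
RAM, admissible polynomials, oracles) and `Pool/Agent/H940_ver/FinalV.lean` (`Holds`).
-/

namespace Pool.Agent.Results.MP_66dcb2_lc.Verification

open Pool.Agent.H940_dft

/-- There is a fixed program of the word RAM which, given an explicit polynomial `f₀` with `k`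
terms and an oracle for an admissible polynomial `f`, decides within time
`A k (log N) ^ C B ^ C` whether `f = f₀`: it halts with the word `1` in the register `85` if
`f = f₀`, and with the word `0` otherwise. (The first part says that the initial configurations
in which `f₀` is given exist.) -/
theorem result : ∃ C₀ : ℝ, 2 ≤ C₀ ∧ ∃ (P : List Instr) (A : ℝ) (C : ℕ),
    ∀ k N B : ℕ, 1 ≤ k → k ≤ N → 2 ≤ N → 1 ≤ B →
    ∀ f f₀ : ℤ →₀ ℂ, Admissible k N B f → Admissible k N B f₀ →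
    (∃ c₀ : Conf (wordLength C₀ N B), Holds k N B f₀ c₀) ∧
    ∀ c₀ : Conf (wordLength C₀ N B), Holds k N B f₀ c₀ →
    ∀ O : ℕ → ℕ → ℕ → ℤ × ℤ, IsOracle (wordLength C₀ N B) f O →
    ∃ n : ℕ, (n : ℝ) ≤ A * k * Real.logb 2 N ^ C * B ^ C ∧
      ∃ c : Conf (wordLength C₀ N B), Runs P O n c₀ c ∧ Halted P c ∧
        (f = f₀ → c.reg 85 = BitVec.ofNat _ 1) ∧ (f ≠ f₀ → c.reg 85 = BitVec.ofNat _ 0) := by
  obtain ⟨V, hV⟩ : ∃ V, V = Vc 5 + 1 := ⟨_, rfl⟩
  refine ⟨(Vc 5 : ℝ), ?_, programV,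
    ((5 + 5 * V + 20 * (410000325 + 265 * V) : ℕ) : ℝ) * 15 ^ 14, 14, ?_⟩
  · have : 2 ≤ Vc 5 := by unfold Vc; omega
    exact_mod_cast this
  intro k N B hk hkN hN hB f f₀ hf hf₀
  obtain ⟨p, hp⟩ : ∃ p : Par, p = ⟨k, N, B, 5, hk, hkN, hN, hB⟩ := ⟨_, rfl⟩
  have pk : p.k = k := by rw [hp]
  have pN : p.N = N := by rw [hp]
  have pB : p.B = B := by rw [hp]
  have pc : p.c = 5 := by rw [hp]
  obtain ⟨h1, h2, h3⟩ := logb_facts p
  rw [pN] at h1 h2 h3
  have adm : ∀ g : ℤ →₀ ℂ, Admissible k N B g → Adm p g := fun g hg =>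
    ⟨by rw [pk]; exact hg.card, by rw [pN]; exact hg.freq,
      by rw [pB]; exact hg.grid, by rw [pB]; exact hg.upper⟩
  refine ⟨by
    have := holds_exists (w := wordLength (Vc 5 : ℝ) N B) p (by rw [pc, pN, pB]) (adm f₀ hf₀)
    rwa [pk, pN, pB] at this, ?_⟩
  intro c₀ hc₀ O hO
  have hcast : ∀ (w' : ℕ) (e : w' = wordLength (Vc 5 : ℝ) N B) (c₀ : Conf w')
      (_ : Holds k N B f₀ c₀) (_ : IsOracle w' f O),
      ∃ n : ℕ, (n : ℝ) ≤ ((5 + 5 * V + 20 * (410000325 + 265 * V) : ℕ) : ℝ) * 15 ^ 14 * k *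
        Real.logb 2 N ^ 14 * B ^ 14 ∧
      ∃ c : Conf w', Runs programV O n c₀ c ∧ Halted programV c ∧
        (f = f₀ → c.reg 85 = BitVec.ofNat _ 1) ∧ (f ≠ f₀ → c.reg 85 = BitVec.ofNat _ 0) := by
    intro w hw c₀ hc₀ hO
    obtain ⟨T, hT, cf, hr, hh, ho⟩ := programV_correct p pc (w := w) (by rw [pc, pN, pB, hw])
      (adm f hf) (adm f₀ hf₀) hO (c₀ := c₀) (by rw [pk, pN, pB]; exact hc₀)
    refine ⟨T, ?_, cf, hr, hh, ho⟩
    -- the running time
    have hwl : w ≤ V * p.l := by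
      have h4 := (wl_bounds p).2
      rw [pc, pN, pB, ← hw] at h4
      have := p.l_ge
      rw [hV]
      nlinarith
    have hl1 : 1 ≤ p.l := by have := p.l_ge; omega
    have h5 := p.cinitx_le hwl
    have h6 := p.cver_le pc
    rw [pc] at h5
    have e14 : p.a 14 = k * p.l ^ 14 := by unfold Par.a; rw [pk]
    have m2 := p.a_mono (show 2 ≤ 14 by norm_num)
    have m0 := p.a_pos 14
    have hlm : p.l ≤ p.a 14 := by
      rw [e14]
      calc p.l = 1 * p.l ^ 1 := by ring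
        _ ≤ k * p.l ^ 14 := Nat.mul_le_mul hk (Nat.pow_le_pow_right hl1 (by norm_num))
    have hT2 : T ≤ (5 + 5 * V + 20 * (410000325 + 265 * V)) * p.a 14 := by
      have h7 : w ≤ V * p.a 14 := hwl.trans (Nat.mul_le_mul_left _ hlm)
      have h8 : (10000000 + 65 * 5 + 265 * V) * p.a 2 ≤ (10000325 + 265 * V) * p.a 14 :=
        Nat.mul_le_mul (by omega) m2
      calc T ≤ 5 + 5 * w + 20 * (p.cinitx w + p.cver) := hT
        _ ≤ 5 * p.a 14 + 5 * (V * p.a 14) + 20 * ((10000325 + 265 * V) * p.a 14 +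
            400000000 * p.a 14) := by
          have := h5.trans h8
          omega
        _ = _ := by ring
    have hl : (p.l : ℝ) ≤ 15 * (Real.logb 2 N * B) := by
      have e1 : (p.l : ℝ) = p.P + p.B := by unfold Par.l; push_cast; ring
      have hB1 : (1 : ℝ) ≤ B := by exact_mod_cast hB
      rw [e1, pB]
      nlinarith
    have hl0 : (0 : ℝ) ≤ p.l := by positivity
    have hpow : (p.l : ℝ) ^ 14 ≤ 15 ^ 14 * (Real.logb 2 N ^ 14 * (B : ℝ) ^ 14) := by
      calc (p.l : ℝ) ^ 14 ≤ (15 * (Real.logb 2 N * B)) ^ 14 := pow_le_pow_left₀ hl0 hl _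
        _ = _ := by rw [mul_pow, mul_pow]
    have hT3 : (T : ℝ) ≤ ((5 + 5 * V + 20 * (410000325 + 265 * V) : ℕ) : ℝ) *
        (k * (p.l : ℝ) ^ 14) := by
      rw [e14] at hT2
      exact_mod_cast hT2
    refine hT3.trans ?_
    calc _ ≤ ((5 + 5 * V + 20 * (410000325 + 265 * V) : ℕ) : ℝ) *
          (k * (15 ^ 14 * (Real.logb 2 N ^ 14 * (B : ℝ) ^ 14))) := by
          gcongr
      _ = _ := by ring
  exact hcast _ rfl c₀ hc₀ hO

end Pool.Agent.Results.MP_66dcb2_lc.Verification
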